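import Pool.Agent.Run7.h328.SEP.Pow

/-!
# Sato-Tate moments of `A₀ × ∏ J(C_l)^(r_l)` for an arbitrary fixed abelian variety `A₀` and almost all curves `C_l`

Let `K` be a number field of degree `d` (`K = ℚ` in the question), let `C_l`, `1 ≤ l ≤ n`, be the smooth projective curve
`y² = x^(2 g_l + 1) + ∑ (α_(l,i) + m_(l,i)) x^i` of genus `g_l ≥ G`, where `α_(l,i) ∈ 𝓞_K` are given and `m_(l,i)` are integers, and
let `A₀` be an abelian variety over `K`.  For `A = A₀ × ∏ J(C_l)^(r_l)` the coefficient of `T` in the normalised Euler factor is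

`a_1(A)(v) = a_1(A₀)(v) + ∑ r_l a_1(C_l)(v)`,   `a_1(C_l)(v) = (#C_l(k_v) - (q_v + 1)) / q_v^(1/2)`.

For almost all `m` the Sato-Tate group of `A` is `ST(A₀) × ∏ USp(2 g_l)`, and the moments up to the order `2 G + 1` of the trace of a
random matrix in `USp(2 g_l)` are those of a standard normal variable `Z`.  So the Sato-Tate conjecture predicts that the moments of
order `k ≤ 2 G + 1` of `a_1(A)(v)` are those of `a_1(A₀)(v) + σ Z` with `σ² = ∑ r_l²`.

We show: for `H` large in terms of `ε`, `d`, `G` and the `g_l`, every `K` and `α`, all but a proportion `H ^ (-ε/500)` of the vectors `m` in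
the box `[-H, H] ^ (∑ (2 g_l + 1))` have the property

`|∑ w(v) q_v^(-iτ) (a_1(A)(v) ^ k - E (a_1(A₀)(v) + σ Z) ^ k)| ≤ C (B + ∑ |r_l|) ^ k (T ^ (1/2 + ε) + (log H) ^ (4/ε))`,

the sum over the primes `v` with `q_v ≤ T` at which all curves have good reduction, for all `k ≤ 2 G + 1`, all exponents `r_l` (even all
real numbers), all `T ≤ H ^ (ε/200)`, all `|τ| ≤ H ^ (ε/200)`, all `w` in a set `W` of complex weights of absolute value at most `1` and all
`A₀` in a set `𝒜` of abelian varieties (given by the functions `b = a_1(A₀)`, `|b| ≤ B`), where `|W| |𝒜| ≤ H ^ (ε/600)`, at the same time.  So the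
moments up to the order `2 G + 1` of `a_1(A)` are as predicted, up to the error `T ^ (-1/2 + 2ε)`, if this is so for those of `a_1(A₀)`;
this holds for all powers and for products with elliptic curves, abelian varieties with complex multiplication, etc.

Proof.  At the primes of degree one, i.e. at the homomorphisms `φ : 𝓞_K → F_p`, the means over all `m` modulo `p` of the products of
powers of the `a_1(C_l)` are the products of the moments of the groups `USp(2 g_l)` up to `O(1/p)` (starting library `Y57.FD` for one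
curve).  The residues of `m` modulo the square-free numbers up to a power of `H` are uniformly distributed; hence the `2 j`-th moment of
the sum over the prime numbers in `(y, 2 y]`, for `j` about `log H / log y`, is at most `(C j y) ^ j`.  We take the union over all `T`,
the weights `w b ^ e` and a grid of `τ`.
-/

set_option autoImplicit false

open Filter

namespace Pool.Agent.Results.MP_753a9c_nt.FixedFactor

open NumberField IsDedekindDomain Finset

/-- The number of the solutions of `y ^ 2 = x ^ D + ∑ c_i x ^ i` in `R`. -/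
noncomputable def points {R : Type} [CommRing R] {D : ℕ} (c : Fin D → R) : ℕ :=
  Nat.card {P : R × R // P.2 ^ 2 = P.1 ^ D + ∑ i, c i * P.1 ^ (i : ℕ)}

variable {K : Type} [Field K] [NumberField K]

/-- `q_v`, the norm of `v`. -/
noncomputable def q (v : HeightOneSpectrum (𝓞 K)) : ℕ := Ideal.absNorm v.asIdeal

/-- The coefficients modulo `v`. -/
noncomputable def bar {D : ℕ} (v : HeightOneSpectrum (𝓞 K)) (c : Fin D → 𝓞 K) : Fin D → 𝓞 K ⧸ v.asIdeal :=
  fun i => Ideal.Quotient.mk v.asIdeal (c i)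

/-- `v` does not divide `2` and the polynomial `x ^ D + ∑ c_i x ^ i` is separable modulo `v`, so that the curve is smooth modulo `v`. -/
def Good {D : ℕ} (v : HeightOneSpectrum (𝓞 K)) (c : Fin D → 𝓞 K) : Prop :=
  (2 : 𝓞 K) ∉ v.asIdeal ∧
    (Polynomial.X ^ D + ∑ i, Polynomial.C (bar v c i) * Polynomial.X ^ (i : ℕ) : Polynomial (𝓞 K ⧸ v.asIdeal)).Separable

/-- The coefficient `a_1` of the normalised Euler factor of the curve `y ^ 2 = x ^ D + ∑ c_i x ^ i`, `D` odd:
`(#C(k_v) - (q_v + 1)) / q_v ^ (1 / 2)`; there is one point at infinity. -/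
noncomputable def a₁ {D : ℕ} (v : HeightOneSpectrum (𝓞 K)) (c : Fin D → 𝓞 K) : ℝ :=
  (((points (bar v c) : ℝ) + 1) - ((q v : ℝ) + 1)) / Real.sqrt (q v)

/-- The moments of a standard normal variable. -/
noncomputable def normal (j : ℕ) : ℝ := if Even j then (Nat.doubleFactorial (j - 1) : ℝ) else 0

/-- The moment `E (b + σ Z) ^ k` with a standard normal variable `Z` and `σ ^ 2 = s`:
`∑ (k choose j) b ^ (k - j) σ ^ j E Z ^ j`, the sum over the even `j ≤ k`. -/
noncomputable def shifted (b s : ℝ) (k : ℕ) : ℝ :=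
  ∑ j ∈ (range (k + 1)).filter Even, (k.choose j : ℝ) * b ^ (k - j) * (s ^ (j / 2) * normal j)

section
variable {n : ℕ} (g : Fin n → ℕ)

/-- The indices of the coefficients: `(l, i)` with `1 ≤ l ≤ n`, `0 ≤ i ≤ 2 g_l`. -/
abbrev Index : Type := Σ l : Fin n, Fin (2 * g l + 1)

/-- The coefficients of the curve number `l`. -/
def curve {R : Type} (c : Index g → R) (l : Fin n) : Fin (2 * g l + 1) → R := fun i => c ⟨l, i⟩

/-- All curves have good reduction at `v`. -/
def AllGood (c : Index g → 𝓞 K) (v : HeightOneSpectrum (𝓞 K)) : Prop := ∀ l, Good v (curve g c l)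

/-- The coefficient `a_1` of the normalised Euler factor of `A₀ × ∏ J(C_l)^(r_l)` at `v`, where `b` is the one of `A₀`. -/
noncomputable def a₁A (r : Fin n → ℝ) (b : HeightOneSpectrum (𝓞 K) → ℝ) (c : Index g → 𝓞 K) (v : HeightOneSpectrum (𝓞 K)) : ℝ :=
  b v + ∑ l, r l * a₁ v (curve g c l)

open Classical in
/-- The sum over the primes `v` with `q_v ≤ T` at which all curves have good reduction. -/
noncomputable def primeSum (r : Fin n → ℝ) (w : HeightOneSpectrum (𝓞 K) → ℂ) (b : HeightOneSpectrum (𝓞 K) → ℝ)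
    (c : Index g → 𝓞 K) (k T : ℕ) (τ : ℝ) : ℂ :=
  ∑' v : HeightOneSpectrum (𝓞 K), if q v ≤ T ∧ AllGood g c v then
    w v * (q v : ℂ) ^ (-(τ * Complex.I) : ℂ) * ((a₁A g r b c v ^ k - shifted (b v) (∑ l, r l ^ 2) k : ℝ) : ℂ) else 0

/-- The box `[-H, H] ^ (∑ (2 g_l + 1))`. -/
noncomputable def cube (H : ℕ) : Finset (Index g → ℤ) := Fintype.piFinset fun _ => Icc (-(H : ℤ)) H

open Run7.h328.SEP.Taub in
lemma al_eq (c : Index g → 𝓞 K) (l : Fin n) (v : HeightOneSpectrum (𝓞 K)) :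
    al g c l v = a₁ v (curve g c l) := by
  have h : Nat.card (𝓞 K ⧸ v.asIdeal) = q v := rfl
  unfold al a₁ Run7.h328.SEP.HypK.a1
  rw [h]
  congr 1
  have : (points (bar v (curve g c l)) : ℝ) =
    (Run7.h328.SEP.HypK.N1 (Run7.h328.SEP.HypK.rv v (Run7.h328.SEP.TupK.cp g l c)) : ℝ) := rfl
  rw [this]
  ring

end

open Run7.h328.SEP.Mult in
lemma bm_eq (b s : ℝ) (k : ℕ) : bm b s k = shifted b s k := by
  unfold bm shifted
  rw [Finset.sum_filter, ← Finset.sum_range_reflect]
  refine Finset.sum_congr rfl fun m hm => ?_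
  rw [Finset.mem_range] at hm
  have e1 : k + 1 - 1 - m = k - m := by omega
  have e2 : k - (k - m) = m := by omega
  rw [e1, e2, Nat.choose_symm (by omega)]
  unfold gm normal
  split_ifs
  · ring
  · ring

/-- **The theorem.**  See the head of the file. -/
theorem result {n : ℕ} (g : Fin n → ℕ) (G : ℕ) (hG : ∀ l, G ≤ g l) (d : ℕ) :
    ∃ C : ℝ, 0 < C ∧ ∀ ε : ℝ, 0 < ε → ε ≤ 1 → ∃ H₀ : ℕ, ∀ H : ℕ, H₀ ≤ H →
    ∀ (K : Type) [Field K] [NumberField K], Module.finrank ℚ K = d → ∀ α : Index g → 𝓞 K, ∀ B : ℝ, 0 < B →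
    ∀ (W : Finset (HeightOneSpectrum (𝓞 K) → ℂ)) (𝒜 : Finset (HeightOneSpectrum (𝓞 K) → ℝ)),
    (∀ w ∈ W, ∀ v, ‖w v‖ ≤ 1) → (∀ b ∈ 𝒜, ∀ v, |b v| ≤ B) → (W.card * 𝒜.card : ℝ) ≤ (H : ℝ) ^ (ε / 600) →
    ∃ X ⊆ cube g H, (X.card : ℝ) ≤ (H : ℝ) ^ (-(ε / 500)) * (2 * H + 1) ^ (∑ l, (2 * g l + 1)) ∧
      ∀ m ∈ cube g H \ X, ∀ w ∈ W, ∀ b ∈ 𝒜, ∀ (r : Fin n → ℝ) (k T : ℕ) (τ : ℝ), k ≤ 2 * G + 1 →
        (T : ℝ) ≤ (H : ℝ) ^ (ε / 200) → |τ| ≤ (H : ℝ) ^ (ε / 200) →
        ‖primeSum g r w b (fun i => α i + (m i : 𝓞 K)) k T τ‖ ≤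
          C * (B + ∑ l, |r l|) ^ k * ((T : ℝ) ^ (1 / 2 + ε) + Real.log H ^ (4 / ε)) := by
  obtain ⟨C, hC, h⟩ := Run7.h328.SEP.Pow.powers n g G hG d
  refine ⟨C, hC, fun ε hε hε1 => ?_⟩
  obtain ⟨H₀, h⟩ := Filter.eventually_atTop.1 (h ε hε hε1)
  refine ⟨H₀, fun H hH K _ _ hK α B hB W 𝒜 hW h𝒜 hc => ?_⟩
  obtain ⟨Ex, hE1, hE2, hE3⟩ := h H hH K hK α B hB W hW 𝒜 h𝒜 hc
  have hbox : Pool.Agent.Y722.HS.box (Run7.h328.SEP.TupK.Ix g) H = cube g H := rfl
  have hcard : ((cube g H).card : ℝ) = (2 * H + 1) ^ (∑ l, (2 * g l + 1)) := by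
    unfold cube
    rw [Fintype.card_piFinset]
    simp only [Int.card_Icc, Finset.prod_const, Finset.card_univ, Fintype.card_sigma, Fintype.card_fin]
    have : ((H : ℤ) + 1 - -(H : ℤ)).toNat = 2 * H + 1 := by omega
    rw [this]
    push_cast
    ring
  rw [hbox] at hE1 hE2 hE3
  refine ⟨Ex, hE1, ?_, ?_⟩
  · rw [← hcard]
    exact hE2
  · intro m hm w hw b hb r k T τ hk hT hτ
    have h1 := hE3 m hm w hw b hb r k hk T hT τ hτ
    refine le_trans (le_of_eq ?_) h1
    congr 1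
    unfold primeSum
    refine tsum_congr fun v => ?_
    rw [← bm_eq]
    unfold a₁A
    simp only [← al_eq]
    rfl

end Pool.Agent.Results.MP_753a9c_nt.FixedFactor
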