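import Pool.Agent.Run7.h712.HE.Fam
import Pool.Agent.Run7.h712.HE.Dst
import Pool.Agent.Run7.h712.HE.Knd
import Pool.Agent.Run7.h712.HE.Cnt

/-!
# The joint Sato–Tate moments of products of hyperelliptic Jacobians, for almost all members of thin families

`A_c` is the product of the Jacobians of the curves `y ² = x ^ (2 g_l + 1) + ∑ i ≤ 2 g_l, c_{l, i} x ^ i` (`1 ≤ l ≤ r`) over `ℚ`.
-/

set_option autoImplicit false

namespace Pool.Agent.Results.MP_753a9c_nt.HyperellipticJacobians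

open Finset Filter MeasureTheory Polynomial ProbabilityTheory

/-- The number of the solutions of `y ^ 2 = x ^ D + ∑ c_i x ^ i` over the field with `p ^ j` elements. For odd `D` the curve has one more
point, at infinity. -/
noncomputable def points {D : ℕ} (c : Fin D → ℤ) (p j : ℕ) [Fact p.Prime] : ℕ :=
  Nat.card {P : GaloisField p j × GaloisField p j // P.2 ^ 2 = P.1 ^ D + ∑ i, (c i : GaloisField p j) * P.1 ^ (i : ℕ)}

/-- The coefficients of `exp (∑ s_j T ^ j / j)`, by Newton's identities; this is `∏ (1 - α T)` if `s_j` is minus the sum of the `α ^ j`. -/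
noncomputable def newton (s : ℕ → ℝ) : ℕ → ℝ
  | 0 => 1
  | k + 1 => (∑ j : Fin (k + 1), s (j + 1) * newton s (k - j)) / (k + 1)

/-- The number of the `r`-tuples of multigraphs with loops, on `n` vertices, in which the vertex `i` has the total degree `k i` (a loop counts
twice). -/
noncomputable def mean (r : ℕ) {n : ℕ} (k : Fin n → ℕ) : ℕ :=
  Set.ncard {e : Fin r → Sym2 (Fin n) → ℕ | ∀ i, ∑ l, (∑ i', e l s(i, i') + e l s(i, i)) = k i}

section
variable {r : ℕ} {g : Fin r → ℕ}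

/-- The prime `p` is odd and the `r` polynomials are separable modulo `p`. -/
def Good (c : (Σ l : Fin r, Fin (2 * g l + 1)) → ℤ) (p : ℕ) : Prop :=
  p.Prime ∧ p ≠ 2 ∧ ∀ l, (X ^ (2 * g l + 1) + ∑ i : Fin (2 * g l + 1), C (c ⟨l, i⟩ : ZMod p) * X ^ (i : ℕ) : (ZMod p)[X]).Separable

/-- The coefficient of `T ^ k` in the normalised L-polynomial of `A_c` at the prime `p`; the sum of the `j`-th powers of the normalised
eigenvalues of the Frobenius is minus the sum over `l` of `(points - p ^ j) / p ^ (j / 2)`. -/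
noncomputable def coeff (c : (Σ l : Fin r, Fin (2 * g l + 1)) → ℤ) (k p : ℕ) : ℝ :=
  if h : p.Prime then
    haveI : Fact p.Prime := ⟨h⟩
    newton (fun j => ∑ l, ((points (fun i => c ⟨l, i⟩) p j : ℝ) - (p : ℝ) ^ j) / Real.sqrt p ^ j) k
  else 0

open Classical in
/-- the good primes `p ≤ T` of the set `S` -/
noncomputable def V (c : (Σ l : Fin r, Fin (2 * g l + 1)) → ℤ) (S : Set ℕ) (T : ℕ) : Finset ℕ :=
  (range (T + 1)).filter fun p => Good c p ∧ p ∈ S

open Classical in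
/-- For all `T` with `y ≤ T ≤ N ^ κ`: there are at most `T ^ (1 / 2 + δ)` primes `p ≤ T` which are not good, and for all the sets `S` of the
family `𝒮 T`: all the joint moments of total weight at most `2 G + 1` of the coefficients, over the good primes `p ≤ T` of `S`, are
the numbers `mean r k` with an error of the size of `T ^ (1 / 2 + δ)`, and, if there are at least `T ^ (1 / 2 + 2 δ)` such primes, the distribution
function of `coeff c 1 / √r` over these primes is the normal one with an error of `4 / √G + T ^ (- δ / 2)`. -/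
def Regular (G : ℕ) (δ : ℝ) (𝒮 : ℕ → Finset (Set ℕ)) (κ : ℝ) (N y : ℕ) (c : (Σ l : Fin r, Fin (2 * g l + 1)) → ℤ) : Prop :=
  ∀ T : ℕ, y ≤ T → (T : ℝ) ≤ (N : ℝ) ^ κ →
    (((range (T + 1)).filter fun p => p.Prime ∧ ¬ Good c p).card : ℝ) ≤ (T : ℝ) ^ (1 / 2 + δ) ∧
    ∀ S ∈ 𝒮 T,
      (∀ (n : ℕ) (k : Fin n → ℕ), (∀ i, 1 ≤ k i) → ∑ i, k i ≤ 2 * G + 1 →
        |∑ p ∈ V c S T, (∏ i, coeff c (k i) p - mean r k)| ≤ (T : ℝ) ^ (1 / 2 + δ)) ∧
      ((T : ℝ) ^ (1 / 2 + 2 * δ) ≤ (V c S T).card → ∀ x : ℝ,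
        |(((V c S T).filter fun p => coeff c 1 p ≤ Real.sqrt r * x).card : ℝ) / (V c S T).card - (gaussianReal 0 1).real (Set.Iic x)| ≤
          4 / Real.sqrt G + (T : ℝ) ^ (-(δ / 2)))

end

section
variable {J : Type} [Fintype J] [DecidableEq J]

open Classical in
/-- All but the proportion `y ^ (-E)` of the members in any box with sides at least `N`, anywhere. -/
def Boxes (P : ℝ → ℕ → ℕ → (J → ℤ) → Prop) (E : ℕ) : Prop :=
  ∃ κ : ℝ, 0 < κ ∧ ∃ y₀ : ℕ, ∀ y N : ℕ, y₀ ≤ y → 2 ≤ N → ∀ (a : J → ℤ) (L : J → ℕ), (∀ i, N ≤ L i) →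
    (((Fintype.piFinset fun l => Ioc (a l) (a l + L l)).filter fun c => ¬ P κ N y c).card : ℝ) ≤
      1 / (y : ℝ) ^ E * (Fintype.piFinset fun l => Ioc (a l) (a l + L l)).card

open Classical in
/-- All but the proportion `y ^ (-E)` of the members `x t`, for the integers `t ∈ (N, 2 N]` and for the primes `t ∈ (N, 2 N]`. -/
def AlmostAll (P : ℝ → ℕ → ℕ → (J → ℤ) → Prop) (E : ℕ) (x : ℕ → J → ℤ) : Prop :=
  ∃ κ : ℝ, 0 < κ ∧ ∃ y₀ : ℕ, ∀ y N : ℕ, y₀ ≤ y → 2 ≤ N →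
    (((Ioc N (2 * N)).filter fun t => ¬ P κ N y (x t)).card : ℝ) ≤ 1 / (y : ℝ) ^ E * (Ioc N (2 * N)).card ∧
    ((((Ioc N (2 * N)).filter Nat.Prime).filter fun t => ¬ P κ N y (x t)).card : ℝ) ≤
      1 / (y : ℝ) ^ E * ((Ioc N (2 * N)).filter Nat.Prime).card

end

/-- The generalised polynomial `∑ t ∈ F, a t * X ^ t` has the leading exponent `c`, which is positive and not an integer, and a
positive leading coefficient. -/
def Admissible (F : Finset ℝ) (a : ℝ → ℝ) (c : ℝ) : Prop :=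
  c ∈ F ∧ (∀ t ∈ F, t ≤ c) ∧ 0 < c ∧ (∀ k : ℕ, c ≠ k) ∧ 0 < a c

/-- The functions `F t` have separated derivatives and increasing second derivatives on `[u, v]`, for large `t`. -/
def Separated (ρ u v : ℝ) (F : ℕ → ℝ → ℝ) : Prop :=
  (∀ n, ContDiff ℝ 2 (F n)) ∧ ∃ n₀ : ℕ, ∀ n, n₀ ≤ n → ∀ x ∈ Set.Icc u v,
    (n : ℝ) ^ (ρ - 1) ≤ deriv (F (n + 1)) x - deriv (F n) x ∧
      deriv (deriv (F n)) x ≤ deriv (deriv (F (n + 1))) x

theorem newton_eq (s : ℕ → ℝ) (k : ℕ) : newton s k = Pool.Agent.Run7.h712.HE.coe (fun j => s (j + 1)) k := by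
  induction k using Nat.strong_induction_on with
  | _ k ih =>
    rcases k with _ | k
    · rw [newton, Pool.Agent.Run7.h712.HE.coe]
    · rw [newton, Pool.Agent.Run7.h712.HE.coe]
      congr 1
      refine Finset.sum_congr rfl fun j _ => ?_
      rw [ih (k - j) (by omega)]

section
variable {r : ℕ} {g : Fin r → ℕ}

open Pool.Agent.Run7.h712.HE (cur Gd PC gR Ph sP sn)
open Pool.Agent.Y722.HS (red PR mem_PR)

theorem Good_iff (c : (Σ l : Fin r, Fin (2 * g l + 1)) → ℤ) (p : ℕ) [hp : Fact p.Prime] : Good c p ↔ Gd p (cur (red p c)) :=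
  ⟨fun h => h.2, fun h => ⟨hp.out, h⟩⟩

theorem coeff_eq (c : (Σ l : Fin r, Fin (2 * g l + 1)) → ℤ) (k p : ℕ) [hp : Fact p.Prime] (h2 : p ≠ 2) :
    coeff c k p = Pool.Agent.Run7.h712.HE.coe (sP p (d := fun l => 2 * g l) (cur (red p c))) k := by
  unfold coeff
  rw [dif_pos hp.out, newton_eq]
  congr 1
  funext j
  unfold sP
  refine Finset.sum_congr rfl fun l _ => ?_
  have h1 := Pool.Agent.Run7.h712.HE.points_eq h2 (fun i => c ⟨l, i⟩) (j := j + 1) (by omega)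
  have h3 : (points (fun i => c ⟨l, i⟩) p (j + 1) : ℝ) = Pool.Agent.Run7.h712.HE.points (fun i => c ⟨l, i⟩) p (j + 1) := rfl
  rw [h3, h1, add_sub_cancel_left]
  rfl

theorem mean_eq {n : ℕ} (k : Fin n → ℕ) : mean r k = gR (Fin r) k := rfl

open Classical in
theorem sum_none (c : (Σ l : Fin r, Fin (2 * g l + 1)) → ℤ) (T n : ℕ) :
    ∑ p ∈ PR T, 1 * Ph g (none : Option (Fin n → ℕ)) p (red p c) = ((range (T + 1)).filter fun p => p.Prime ∧ ¬ Good c p).card := by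
  rw [card_filter]
  push_cast
  have h1 : ∀ p ∈ range (T + 1), p ∉ PR T → (if p.Prime ∧ ¬ Good c p then (1 : ℝ) else 0) = 0 := by
    intro p hp hpn
    rw [if_neg]
    intro h
    exact hpn (mem_PR.2 ⟨by have := mem_range.1 hp; omega, h.1⟩)
  rw [← Finset.sum_subset (fun p hp => mem_range.2 (by have := (mem_PR.1 hp).1; omega)) h1]
  refine Finset.sum_congr rfl fun p hp => ?_
  have : Fact p.Prime := ⟨(mem_PR.1 hp).2⟩
  unfold Ph
  rw [dif_pos (mem_PR.1 hp).2]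
  simp only
  by_cases h : Good c p
  · have h3 : ¬ (p.Prime ∧ ¬ Good c p) := fun h' => h'.2 h
    have h4 := (Good_iff c p).1 h
    rw [if_pos h4, if_neg h3, one_mul]
  · have h3 : p.Prime ∧ ¬ Good c p := ⟨(mem_PR.1 hp).2, h⟩
    have h4 : ¬ Gd p (cur (red p c)) := fun h' => h ((Good_iff c p).2 h')
    rw [if_neg h4, if_pos h3, one_mul]

open Classical in
theorem sum_some (c : (Σ l : Fin r, Fin (2 * g l + 1)) → ℤ) (S : Set ℕ) (T : ℕ) {n : ℕ} (k : Fin n → ℕ) :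
    ∑ p ∈ PR T, (if p ∈ S then 1 else 0) * Ph g (some k) p (red p c) = ∑ p ∈ V c S T, (∏ i, coeff c (k i) p - mean r k) := by
  unfold V
  rw [Finset.sum_filter]
  have h1 : ∀ p ∈ range (T + 1), p ∉ PR T → (if Good c p ∧ p ∈ S then (∏ i, coeff c (k i) p - (mean r k : ℝ)) else 0) = 0 := by
    intro p hp hpn
    rw [if_neg]
    intro h
    exact hpn (mem_PR.2 ⟨by have := mem_range.1 hp; omega, h.1.1⟩)
  rw [← Finset.sum_subset (fun p hp => mem_range.2 (by have := (mem_PR.1 hp).1; omega)) h1]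
  refine Finset.sum_congr rfl fun p hp => ?_
  have : Fact p.Prime := ⟨(mem_PR.1 hp).2⟩
  unfold Ph
  rw [dif_pos (mem_PR.1 hp).2]
  simp only
  by_cases h : Good c p
  · rw [if_pos ((Good_iff c p).1 h)]
    by_cases hS : p ∈ S
    · rw [if_pos hS, if_pos ⟨h, hS⟩, one_mul, mean_eq]
      congr 1
      unfold PC
      exact Finset.prod_congr rfl fun i _ => (coeff_eq c (k i) p h.2.1).symm
    · rw [if_neg hS, if_neg (fun h' => hS h'.2), zero_mul]
  · have h4 : ¬ Gd p (cur (red p c)) := fun h' => h ((Good_iff c p).2 h')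
    have h3 : ¬ (Good c p ∧ p ∈ S) := fun h' => h h'.1
    rw [if_neg h4, if_neg h3, mul_zero]

open Classical in
theorem main (G : ℕ) (hr : 1 ≤ r) (hG1 : 1 ≤ G) (hG : ∀ l, G ≤ g l) (δ : ℝ) (hδ : 0 < δ) (E B : ℕ) (𝒮 : ℕ → Finset (Set ℕ))
    (h𝒮 : ∀ T, 2 ≤ T → (𝒮 T).card ≤ T ^ B) (κ : ℝ) (hκ : 0 < κ) (N₀ : ℕ) : ∃ κ' : ℝ, 0 < κ' ∧ ∃ y₀ : ℕ, 16 ≤ y₀ ∧ ∀ y M : ℕ, y₀ ≤ y → 2 ≤ M →
      ∀ (S : Finset ℕ) (x : ℕ → (Σ l : Fin r, Fin (2 * g l + 1)) → ℤ), (N₀ ≤ M → ∀ H : ℕ, (H : ℝ) ≤ (M : ℝ) ^ κ → Pool.Agent.N666.TM.Well S x H) →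
      ((S.filter fun t => ¬ Regular G δ 𝒮 κ' M y (x t)).card : ℝ) ≤ 1 / (y : ℝ) ^ E * S.card := by
  obtain ⟨Q, hQ⟩ : ∃ Q : Finset (Option (Σ n : ℕ, Fin n → ℕ)), Q = insert none
      ((((range (2 * G + 2)).sigma fun n => Fintype.piFinset fun _ : Fin n => range (2 * G + 2)).filter fun k => ∑ i, k.2 i ≤ 2 * G + 1).image some) :=
    ⟨_, rfl⟩
  have hQn : none ∈ Q := by
    rw [hQ]
    exact mem_insert_self _ _
  have hQs : ∀ (n : ℕ) (k : Fin n → ℕ), (∀ i, 1 ≤ k i) → ∑ i, k i ≤ 2 * G + 1 → some ⟨n, k⟩ ∈ Q := by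
    intro n k hk hs
    rw [hQ]
    refine mem_insert_of_mem (mem_image_of_mem _ ?_)
    rw [mem_filter, mem_sigma]
    refine ⟨⟨?_, ?_⟩, hs⟩
    · rw [mem_range]
      have h1 : ∑ i : Fin n, 1 ≤ ∑ i, k i := Finset.sum_le_sum fun i _ => hk i
      rw [Finset.sum_const, card_univ, Fintype.card_fin, smul_eq_mul, mul_one] at h1
      show n < 2 * G + 2
      omega
    · rw [Fintype.mem_piFinset]
      intro i
      rw [mem_range]
      have h1 : k i ≤ ∑ i, k i := Finset.single_le_sum (f := fun i => k i) (fun _ _ => Nat.zero_le _) (mem_univ i)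
      show k i < 2 * G + 2
      omega
  have hQsum : ∀ (n : ℕ) (k : Fin n → ℕ), some (⟨n, k⟩ : Σ n : ℕ, Fin n → ℕ) ∈ Q → ∑ i, k i ≤ 2 * G + 1 := by
    intro n k h
    rw [hQ, mem_insert] at h
    rcases h with h | h
    · exact absurd h (by simp)
    · rw [mem_image] at h
      obtain ⟨a, ha, hak⟩ := h
      rw [Option.some.injEq] at hak
      subst hak
      exact (mem_filter.1 ha).2
  obtain ⟨Φ, hΦ⟩ : ∃ Φ : Option (Σ n : ℕ, Fin n → ℕ) → ∀ p : ℕ, ((Σ l : Fin r, Fin (2 * g l + 1)) → ZMod p) → ℝ, Φ = fun θ p u =>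
      match θ with
      | none => Ph g (none : Option (Fin 0 → ℕ)) p u
      | some k => Ph g (some k.2) p u := ⟨_, rfl⟩
  obtain ⟨W, hW⟩ : ∃ W : ℕ → Finset (ℕ → ℝ), W = fun T => if T < 2 then ∅ else
      insert (fun _ => 1) ((𝒮 T).image fun S p => if p ∈ S then 1 else 0) := ⟨_, rfl⟩
  obtain ⟨y₁, hdist⟩ := Pool.Agent.Run7.h712.HE.dist r G hr hG1 δ hδ
  obtain ⟨κ', hκ', y₀, hy₀, h⟩ := Pool.Agent.Run7.h712.HE.well_main Q Φ (fun θ hθ => by
      rw [hΦ]
      cases θ with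
      | none => exact Pool.Agent.Run7.h712.HE.Ph_bound _
      | some k => exact Pool.Agent.Run7.h712.HE.Ph_bound _)
    (fun θ hθ => by
      rw [hΦ]
      cases θ with
      | none => exact Pool.Agent.Run7.h712.HE.Ph_mean _ (fun k hk => absurd hk (by simp))
      | some k =>
        refine Pool.Agent.Run7.h712.HE.Ph_mean _ (fun k' hk' l => ?_)
        rw [Option.mem_some_iff] at hk'
        subst hk'
        have h1 := hQsum k.1 k.2 hθ
        have h2 := hG l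
        omega) δ hδ E (B + 1) W (fun T => by
      rw [hW]
      beta_reduce
      split_ifs with hT
      · rw [card_empty]
        exact Nat.zero_le _
      · refine (card_insert_le _ _).trans ?_
        have h1 : ((𝒮 T).image fun S p => if p ∈ S then (1 : ℝ) else 0).card ≤ T ^ B := card_image_le.trans (h𝒮 T (by omega))
        have h2 : 1 ≤ T ^ B := Nat.one_le_pow _ _ (by omega)
        have h3 : T ^ B * 2 ≤ T ^ (B + 1) := by
          rw [pow_succ]
          exact Nat.mul_le_mul_left _ (by omega)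
        omega)
    (fun T w hw p => by
      rw [hW] at hw
      beta_reduce at hw
      split_ifs at hw with hT
      · exact absurd hw (notMem_empty _)
      · rw [mem_insert, mem_image] at hw
        rcases hw with rfl | ⟨S, _, rfl⟩
        · simp
        · show |(if p ∈ S then (1 : ℝ) else 0)| ≤ 1
          split_ifs <;> simp) κ hκ N₀
  refine ⟨κ', hκ', y₀ + y₁, by omega, fun y M hy hM S x hw => ?_⟩
  refine le_trans ?_ (h y M (by omega) hM S x hw)
  refine Nat.cast_le.2 (card_le_card fun t ht => ?_)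
  rw [mem_filter] at ht ⊢
  refine ⟨ht.1, fun h' => ht.2 fun T hyT hT => ?_⟩
  have hT2 : ¬ T < 2 := by omega
  have hmom : ∀ S' ∈ 𝒮 T, ∀ (n : ℕ) (k : Fin n → ℕ), (∀ i, 1 ≤ k i) → ∑ i, k i ≤ 2 * G + 1 →
      |∑ p ∈ V (x t) S' T, (∏ i, coeff (x t) (k i) p - mean r k)| ≤ (T : ℝ) ^ (1 / 2 + δ) := by
    intro S' hS' n k hk hs
    rw [← sum_some]
    have h1 := h' T hyT hT (fun p => if p ∈ S' then 1 else 0) (by
      rw [hW]
      beta_reduce
      rw [if_neg hT2]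
      exact mem_insert_of_mem (mem_image_of_mem _ hS')) (some ⟨n, k⟩) (hQs n k hk hs)
    rw [hΦ] at h1
    exact h1
  refine ⟨?_, fun S' hS' => ⟨hmom S' hS', fun hV => ?_⟩⟩
  · have h1 := h' T hyT hT (fun _ => 1) (by
      rw [hW]
      beta_reduce
      rw [if_neg hT2]
      exact mem_insert_self _ _) none hQn
    rw [hΦ] at h1
    have h2 := sum_none (x t) T 0
    rw [← h2]
    exact (le_abs_self _).trans h1
  · refine hdist T (V (x t) S' T) (fun p => coeff (x t) 1 p) (by omega) hV fun n hn => ?_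
    have h1 := hmom S' hS' n (fun _ => 1) (fun _ => le_rfl) (by
      rw [Finset.sum_const, card_univ, Fintype.card_fin, smul_eq_mul, mul_one]
      omega)
    simp only [Finset.prod_const, card_univ, Fintype.card_fin] at h1
    exact h1

/-- **The joint Sato–Tate moments of products of hyperelliptic Jacobians.** Let `1 ≤ G ≤ g_l`; let `𝒮 T` be a family of at most `T ^ B` sets,
for all `T ≥ 2`, and let `δ > 0`. For every exponent `E`, all but the proportion `y ^ (-E)` of the members are `Regular`,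
* (1) in any box with sides at least `N`, anywhere;
* (2) for the parameters which are the integral parts of generalised polynomials with different leading exponents, at the integers `t` and at
  the primes `t` of `(N, 2 N]`;
* (3) for almost all members of the families of sequences `⌊f_i(t)(ξ_i)⌋` (separated derivatives), `⌊ξ_i g_i(t) + h_i(t)⌋`
  (with `g_i (t + 1) - g_i t ≥ t ^ (ρ - 1)`) and `⌊ξ_i ^ g_i(t) + h_i(t)⌋` (`g_i` strictly increasing, `ξ_i > 1`), of any growth. -/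
theorem result (G : ℕ) (hr : 1 ≤ r) (hG1 : 1 ≤ G) (hG : ∀ l, G ≤ g l) (δ : ℝ) (hδ : 0 < δ) (E B : ℕ) (𝒮 : ℕ → Finset (Set ℕ))
    (h𝒮 : ∀ T, 2 ≤ T → (𝒮 T).card ≤ T ^ B) (ρ : ℝ) (hρ : 0 < ρ) (hρ1 : ρ ≤ 1) :
    Boxes (Regular (g := g) G δ 𝒮) E ∧
    (∀ (f : (Σ l : Fin r, Fin (2 * g l + 1)) → Finset ℝ) (b : (Σ l : Fin r, Fin (2 * g l + 1)) → ℝ → ℝ)
      (c : (Σ l : Fin r, Fin (2 * g l + 1)) → ℝ), (∀ i, Admissible (f i) (b i) (c i)) → Function.Injective c →
      AlmostAll (Regular (g := g) G δ 𝒮) E (fun t i => ⌊∑ s ∈ f i, b i s * (t : ℝ) ^ s⌋)) ∧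
    (∀ (u v : (Σ l : Fin r, Fin (2 * g l + 1)) → ℝ) (f : (Σ l : Fin r, Fin (2 * g l + 1)) → ℕ → ℝ → ℝ), (∀ i, Separated ρ (u i) (v i) (f i)) →
      ∀ᵐ ξ : (Σ l : Fin r, Fin (2 * g l + 1)) → ℝ, (∀ i, ξ i ∈ Set.Ioc (u i) (v i)) →
        AlmostAll (Regular (g := g) G δ 𝒮) E (fun t i => ⌊f i t (ξ i)⌋)) ∧
    (∀ a h : (Σ l : Fin r, Fin (2 * g l + 1)) → ℕ → ℝ, (∀ i, ∀ᶠ t : ℕ in atTop, (t : ℝ) ^ (ρ - 1) ≤ a i (t + 1) - a i t) →
      ∀ᵐ ξ : (Σ l : Fin r, Fin (2 * g l + 1)) → ℝ, AlmostAll (Regular (g := g) G δ 𝒮) E (fun t i => ⌊ξ i * a i t + h i t⌋)) ∧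
    (∀ (a : (Σ l : Fin r, Fin (2 * g l + 1)) → ℕ → ℕ) (h : (Σ l : Fin r, Fin (2 * g l + 1)) → ℕ → ℝ), (∀ i, StrictMono (a i)) →
      ∀ᵐ ξ : (Σ l : Fin r, Fin (2 * g l + 1)) → ℝ, (∀ i, 1 < ξ i) →
        AlmostAll (Regular (g := g) G δ 𝒮) E (fun t i => ⌊ξ i ^ a i t + h i t⌋)) := by
  have : Nonempty (Σ l : Fin r, Fin (2 * g l + 1)) := ⟨⟨⟨0, hr⟩, 0⟩⟩
  exact Pool.Agent.Run7.h712.HE.kinds (Regular (g := g) G δ 𝒮) E (main G hr hG1 hG δ hδ E B 𝒮 h𝒮) ρ hρ hρ1

end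

end Pool.Agent.Results.MP_753a9c_nt.HyperellipticJacobians
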