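import Pool.Agent.Run7.h113.HC.Ext
import Pool.Agent.Run7.h113.HC.Main

/-!
# The L-functions of the products of exterior powers for random products of hyperelliptic Jacobians, up to the line
`Re s = 1`

Let `A = J(C_1) × ... × J(C_r)` be the product of the Jacobians of the curves `C_l : y² = x^(2 g_l + 1) + ...` over `ℚ` with
integer coefficients of absolute value at most `H`. The conjecture of the page says that the mean value of the product
`∏_i a_{k_i}(A)(p)` over the primes is the dimension of the space of invariants of the tensor product of the exterior
powers `Λ^(k_i)` under the Sato-Tate group. This amounts to a statement on the normalised L-function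

  `L(s) = ∏_p det(1 - Frob_p p^(-s) | Λ^(k_1) ⊗ ... ⊗ Λ^(k_n))⁻¹`, `Λ^k` the exterior power of `H¹(A)`, i.e. `H^k(A)`:

it should have a pole of this order at `s = 1` and no other zero or pole on the line `Re s = 1`. For a generic `A` of
dimension `≥ 3` nothing of this kind is known. Here `L(s)` divided by the power of the zeta function gets a *limit law*
over the family, if `∑ k_i ≤ 2 g_l + 1` for all `l`. In this range the predicted order `ρ` is the number of the `r`-tuples
of multigraphs (loops allowed) on the vertices `1, ..., n` in which the vertex `i` has total degree `k_i` (a loop counts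
twice). For `n = 1`, that is for `L(H^(2m)(A), s)` at the point `m + 1`, it is `(r + m - 1).choose m`, the number of the
monomials of degree `m` in the `r` polarisations.

The coefficients modulo the primes, chosen independently and uniformly, define a random Euler product. Its quotient by
`ζ(s) ^ ρ` has almost surely a logarithm `Φ` which is analytic in `Re s > 1 / 2`. If `ε_H → 0` and `ε_H log H → ∞`,
then the functions `s ↦ log (L(s + ε_H) / ζ(s + ε_H) ^ ρ)` of the random `A` of height at most `H` converge in distribution
to `Φ`, uniformly on every compact subset of the *closed* half-plane `Re s ≥ 1`. In particular `ε_H ^ ρ |L(1 + ε_H)|`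
has a limit law on the positive real numbers. Both for `Φ` and for the members of the family the probability of values
`≥ V` is triple exponentially small.

The mean values of the products of the coefficients at a single prime are those of helper712 (`Run7/h712/HE`,
`MP_753a9c_nt.HyperellipticJacobians`).

Definitions (`Run7.h113.HC.Defs`, `Run7.h113.HC.Hyp`):
* `IsFrobenius g β`: `β p r j`, `j < 2 g`, are the normalised eigenvalues of Frobenius on `H¹` of the curve with the
  coefficients `r` modulo `p` (given by the numbers of points over all finite extensions), if `p` is odd and the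
  polynomial is separable modulo `p`; otherwise any numbers of absolute value at most `1` (e.g. `0`).
* `HasRandomEulerProduct ρ α`: the statement above, for the Euler product `LFun α c s` over the `p` of the product of the
  `(1 - α p (c mod p) j p^(-(1 + s)))⁻¹`. In the Lean text the variable `s` is shifted by `1`. `EulerLogs`: the
  logarithms; `Converges`: the random Euler product; `FunctionalLimit`: the limit theorem in `C(K, ℂ)`;
  `LeadingCoefficient`: the law at `s = 1`; `Tails`: large deviations.
-/

set_option autoImplicit false

namespace Pool.Agent.Results.MP_753a9c_nt.LimitLawsAtTheEdge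

open Finset
open Run7.h113.HC Run7.h113.FE

variable {r n : ℕ}

/-- The coefficients of `r` polynomials of degrees `2 g_l + 1`. -/
abbrev Coeffs (g : Fin r → ℕ) : Type := Σ l, Fin (2 * g l + 1)

/-- The indices of the eigenvalues on `H¹` of the product of the Jacobians. -/
abbrev Index (g : Fin r → ℕ) : Type := Σ l, Fin (2 * g l)

/-- The normalised eigenvalues of Frobenius on `Λ^(k_1) H¹(A) ⊗ ... ⊗ Λ^(k_n) H¹(A)`: the products over families of subsets
with `k_i` elements. -/
noncomputable def eigen (g : Fin r → ℕ) (k : Fin n → ℕ)
    (β : ∀ l, (p : Nat.Primes) → (Fin (2 * g l + 1) → ZMod p) → Fin (2 * g l) → ℂ)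
    (p : Nat.Primes) (c : Coeffs g → ZMod p) (J : ∀ i, {S : Finset (Index g) // S.card = k i}) : ℂ :=
  ∏ i, ∏ x ∈ (J i : Finset (Index g)), β x.1 p (fun y => c ⟨x.1, y⟩) x.2

/-- The degree of the vertex `i` in the multigraph with `e z` edges `z`; a loop counts twice. -/
def degree (e : Sym2 (Fin n) → ℕ) (i : Fin n) : ℕ := (∑ j, e s(i, j)) + e s(i, i)

/-- The number of the `r`-tuples of multigraphs on `n` vertices with the total degrees `k i`. -/
noncomputable def order (r : ℕ) (k : Fin n → ℕ) : ℕ :=
  Set.ncard {e : Fin r → Sym2 (Fin n) → ℕ | ∀ i, ∑ l, degree (e l) i = k i}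

/-- For one exterior power of even degree. -/
lemma order_one (r m : ℕ) : order r (fun _ : Fin 1 => 2 * m) = (r + m - 1).choose m := by
  classical
  have h1 : order r (fun _ : Fin 1 => 2 * m) = (piAntidiag (univ : Finset (Fin r)) m).card := by
    unfold order
    rw [← Set.ncard_coe_finset]
    symm
    refine Set.ncard_congr (fun f _ l _ => f l) (fun f hf => ?_) (fun f f' _ _ h => ?_) (fun e he => ?_)
    · rw [Finset.mem_coe, mem_piAntidiag] at hf
      intro i
      have : ∀ l, degree (fun _ : Sym2 (Fin 1) => f l) i = 2 * f l := fun l => by
        unfold degree
        rw [Fintype.sum_unique]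
        ring
      rw [Finset.sum_congr rfl fun l _ => this l, ← Finset.mul_sum, hf.1]
    · funext l
      exact congrFun (congrFun h l) s(0, 0)
    · refine ⟨fun l => e l s(0, 0), ?_, ?_⟩
      · rw [Finset.mem_coe, mem_piAntidiag]
        refine ⟨?_, fun l _ => mem_univ l⟩
        have h2 := he 0
        have : ∀ l, degree (e l) 0 = 2 * e l s(0, 0) := fun l => by
          unfold degree
          rw [Fintype.sum_unique]
          have : (default : Fin 1) = 0 := rfl
          rw [this]
          ring
        rw [Finset.sum_congr rfl fun l _ => this l, ← Finset.mul_sum] at h2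
        exact Nat.eq_of_mul_eq_mul_left two_pos h2
      · funext l z
        have : z = s(0, 0) := by
          induction z with
          | _ x y => rw [Subsingleton.elim x 0, Subsingleton.elim y 0]
        rw [this]
  rw [h1, ← map_sym_eq_piAntidiag, card_map, Finset.sym_univ, Finset.card_univ, Sym.card_sym_eq_choose,
    Fintype.card_fin]

/-- **Random Euler products for the tensor products of exterior powers.** Let `r` curves of genera `g_l` be given by
independent integer coefficients of absolute value at most `H`, let `A` be the product of their Jacobians, and let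
`∑ k_i ≤ 2 g_l + 1` for all `l`. The L-functions of the tensor product of the exterior powers `Λ^(k_i)` of `H¹(A)`, divided
by `ζ(s) ^ ρ`, `ρ` the number of `r`-tuples of multigraphs with total degrees `k_i`, converge in distribution to a random
Euler product on the closed half-plane `Re s ≥ 1`, with a limit law of the leading coefficient and triple exponential
tails. For one exterior power of degree `2 m` one has `ρ = (r + m - 1).choose m`. -/
theorem result :
    (∀ (r n : ℕ) (g : Fin r → ℕ) (k : Fin n → ℕ), (∀ l, ∑ i, k i ≤ 2 * g l + 1) →
      ∀ β : (l : Fin r) → (p : Nat.Primes) → (Fin (2 * g l + 1) → ZMod p) → Fin (2 * g l) → ℂ,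
        (∀ l, IsFrobenius (g l) (β l)) → HasRandomEulerProduct (order r k) (eigen g k β)) ∧
    ∀ r m : ℕ, order r (fun _ : Fin 1 => 2 * m) = (r + m - 1).choose m := by
  classical
  refine ⟨fun r n g k hk β hβ => ?_, order_one⟩
  obtain ⟨C, hC, h⟩ := mean_ext hβ k hk
  refine main (C := C) (fun p c J => ?_) hC fun p => ?_
  · unfold eigen
    rw [norm_prod]
    refine Finset.prod_le_one (fun i _ => norm_nonneg _) fun i _ => ?_
    rw [norm_prod]
    exact Finset.prod_le_one (fun x _ => norm_nonneg _) fun x _ => (hβ x.1).bound p _ _
  · refine le_trans (le_of_eq ?_) (h p)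
    have h2 : ∀ c : Coeffs g → ZMod (p : ℕ), ∑ J, eigen g k β p c J = ∏ i, ee (allB β p c) (k i) := by
      intro c
      have h3 : ∀ i, ee (allB β p c) (k i) =
          ∑ S : {S : Finset (Index g) // S.card = k i}, ∏ x ∈ (S : Finset (Index g)), allB β p c x := by
        intro i
        unfold ee
        exact Finset.sum_subtype _ (fun S => by simp) _
      rw [Finset.prod_congr rfl fun i _ => h3 i, Finset.prod_univ_sum, Fintype.piFinset_univ]
      rfl
    have h4 : (fun c : Coeffs g → ZMod (p : ℕ) => ∑ J, eigen g k β p c J) =
        fun c => ∏ i, ee (allB β p c) (k i) := funext h2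
    rw [h4]
    rfl

end Pool.Agent.Results.MP_753a9c_nt.LimitLawsAtTheEdge
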